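import Mathlib

set_option autoImplicit false

open Set Filter Topology MeasureTheory
open scoped NNReal

namespace Pool.Agent.CKB

section abs
variable {E : Type*} [NormedAddCommGroup E] [NormedSpace ℝ E] (N : ℝ → E → ℝ) (c : ℝ≥0)
  (G : E → Set ℝ) (a b : ℝ)

/-- The hypotheses of the averaging lemma: for every `f` the function `N t` is, for almost every
`t`, affine near `f` (with a locally constant derivative). -/
structure Avg : Prop where
  lip : ∀ t, LipschitzWith c (N t)
  op : ∀ f, IsOpen (G f)
  ae : ∀ f, ∀ᵐ t ∂(volume.restrict (Icc a b)), t ∈ G f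
  cont : ∀ f, ContinuousOn (fun t => N t f) (G f)
  bd : ∀ f, ∃ B : ℝ, ∀ᵐ t ∂(volume.restrict (Icc a b)), ‖N t f‖ ≤ B
  der : ∀ f, ∀ t ∈ G f, ∃ D : E →L[ℝ] ℝ, ∀ᶠ p : E × ℝ in 𝓝 (f, t), HasFDerivAt (N p.2) D p.1

variable {N c G a b}

lemma Avg.aesm_N (h : Avg N c G a b) (f : E) :
    AEStronglyMeasurable (fun t => N t f) (volume.restrict (Icc a b)) := by
  rw [← Measure.restrict_eq_self_of_ae_mem (h.ae f)]
  exact (h.cont f).aestronglyMeasurable (h.op f).measurableSet

lemma Avg.cont_fderiv (h : Avg N c G a b) (f : E) :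
    ContinuousOn (fun t => fderiv ℝ (N t) f) (G f) := by
  intro t ht
  apply ContinuousAt.continuousWithinAt
  obtain ⟨D, hD⟩ := h.der f t ht
  have hc : Continuous fun s : ℝ => (f, s) := by fun_prop
  have h2 := (hc.tendsto t).eventually hD
  have h3 : (fun s => fderiv ℝ (N s) f) =ᶠ[𝓝 t] fun s => D := by
    filter_upwards [h2] with s hs
    exact hs.fderiv
  exact continuousAt_const.congr h3.symm

lemma Avg.aesm_fderiv (h : Avg N c G a b) (f : E) :
    AEStronglyMeasurable (fun t => fderiv ℝ (N t) f) (volume.restrict (Icc a b)) := by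
  rw [← Measure.restrict_eq_self_of_ae_mem (h.ae f)]
  exact (h.cont_fderiv f).aestronglyMeasurable (h.op f).measurableSet

lemma Avg.integrable (h : Avg N c G a b) (f : E) :
    Integrable (fun t => N t f) (volume.restrict (Icc a b)) := by
  obtain ⟨B, hB⟩ := h.bd f
  exact Integrable.mono' (g := fun _ => B) (integrable_const _) (h.aesm_N f) hB

lemma Avg.hasFDerivAt (h : Avg N c G a b) (f : E) :
    HasFDerivAt (fun g : E => ∫ t in Icc a b, N t g) (∫ t in Icc a b, fderiv ℝ (N t) f) f := by
  refine (hasFDerivAt_integral_of_dominated_loc_of_lip (F := fun g t => N t g)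
    (F' := fun t => fderiv ℝ (N t) f) (bound := fun _ => (c : ℝ)) (s := univ)
    univ_mem ?_ (h.integrable f) (h.aesm_fderiv f) ?_ (integrable_const _) ?_).2
  · exact Eventually.of_forall fun g => h.aesm_N g
  · refine Eventually.of_forall fun t => ?_
    have : Real.nnabs (c : ℝ) = c := by simp
    rw [this]
    exact (h.lip t).lipschitzOnWith
  · filter_upwards [h.ae f] with t ht
    obtain ⟨D, hD⟩ := h.der f t ht
    exact hD.self_of_nhds.differentiableAt.hasFDerivAt

lemma Avg.cont_int_fderiv (h : Avg N c G a b) :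
    Continuous (fun f : E => ∫ t in Icc a b, fderiv ℝ (N t) f) := by
  rw [continuous_iff_continuousAt]
  intro f
  refine continuousAt_of_dominated (bound := fun _ => (c : ℝ)) ?_ ?_ (integrable_const _) ?_
  · exact Eventually.of_forall fun g => h.aesm_fderiv g
  · exact Eventually.of_forall fun g => Eventually.of_forall fun t =>
      norm_fderiv_le_of_lipschitz ℝ (h.lip t)
  · filter_upwards [h.ae f] with t ht
    obtain ⟨D, hD⟩ := h.der f t ht
    have hc : Continuous fun g : E => (g, t) := by fun_prop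
    have h2 := (hc.tendsto f).eventually hD
    have h3 : (fun g => fderiv ℝ (N t) g) =ᶠ[𝓝 f] fun g => D := by
      filter_upwards [h2] with g hg
      exact hg.fderiv
    exact continuousAt_const.congr h3.symm

theorem Avg.contDiff (h : Avg N c G a b) :
    ContDiff ℝ 1 (fun f : E => ∫ t in Icc a b, N t f) := by
  rw [contDiff_one_iff_fderiv]
  refine ⟨fun f => (h.hasFDerivAt f).differentiableAt, ?_⟩
  have : fderiv ℝ (fun f : E => ∫ t in Icc a b, N t f) =
      fun f => ∫ t in Icc a b, fderiv ℝ (N t) f := by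
    funext f
    exact (h.hasFDerivAt f).fderiv
  rw [this]
  exact h.cont_int_fderiv

theorem Avg.lipschitz (h : Avg N c G a b) (hab : a ≤ b) (f g : E) :
    |(∫ t in Icc a b, N t f) - ∫ t in Icc a b, N t g| ≤ (b - a) * (c * ‖f - g‖) := by
  rw [← integral_sub (h.integrable f) (h.integrable g), ← Real.norm_eq_abs]
  have h1 : ∀ t ∈ Icc a b, ‖N t f - N t g‖ ≤ c * ‖f - g‖ := by
    intro t _
    have := (h.lip t).dist_le_mul f g
    rwa [dist_eq_norm, dist_eq_norm] at this
  have h2 := norm_setIntegral_le_of_norm_le_const (μ := volume) (s := Icc a b)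
    (f := fun t => N t f - N t g) (C := c * ‖f - g‖) (by simp) h1
  refine h2.trans (le_of_eq ?_)
  rw [Real.volume_real_Icc_of_le hab]
  ring

end abs

end Pool.Agent.CKB
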