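import Mathlib

set_option autoImplicit false

open Set Filter Topology MeasureTheory

namespace Pool.Agent.CKB

/-- a trapezoid function -/
noncomputable def trap (p q d s : ℝ) : ℝ := max 0 (min 1 (min ((s - p) / d) ((q - s) / d)))

lemma trap_cont (p q d : ℝ) : Continuous (trap p q d) := by
  unfold trap; fun_prop

lemma trap_nonneg (p q d s : ℝ) : 0 ≤ trap p q d s := le_max_left _ _

lemma trap_le_one (p q d s : ℝ) : trap p q d s ≤ 1 := max_le zero_le_one (min_le_left _ _)

lemma trap_left {p q d s : ℝ} (hd : 0 < d) (h : s ≤ p) : trap p q d s = 0 := by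
  unfold trap
  rw [max_eq_left]
  refine (min_le_right _ _).trans ((min_le_left _ _).trans ?_)
  exact div_nonpos_of_nonpos_of_nonneg (by linarith) hd.le

lemma trap_right {p q d s : ℝ} (hd : 0 < d) (h : q ≤ s) : trap p q d s = 0 := by
  unfold trap
  rw [max_eq_left]
  refine (min_le_right _ _).trans ((min_le_right _ _).trans ?_)
  exact div_nonpos_of_nonpos_of_nonneg (by linarith) hd.le

lemma trap_mid {p q d s : ℝ} (hd : 0 < d) (h1 : p + d ≤ s) (h2 : s ≤ q - d) :
    trap p q d s = 1 := by
  unfold trap
  have h3 : 1 ≤ (s - p) / d := by rw [le_div_iff₀ hd]; linarith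
  have h4 : 1 ≤ (q - s) / d := by rw [le_div_iff₀ hd]; linarith
  rw [min_eq_left (le_min h3 h4)]
  exact max_eq_right zero_le_one

theorem exists_eta {p q d : ℝ} (hd : 0 < d) (h : 2 * d < q - p) :
    ∃ η : ℝ → ℝ, ContDiff ℝ 1 η ∧ (∀ t, t ≤ p → η t = 1) ∧ (∀ t, q ≤ t → η t = 0) ∧
      (∀ t, 0 ≤ η t ∧ η t ≤ 1) ∧ ∀ t s, |η t - η s| ≤ 1 / (q - p - 2 * d) * |t - s| := by
  have hc := trap_cont p q d
  have hint : ∀ x y : ℝ, IntervalIntegrable (trap p q d) volume x y := fun x y =>
    hc.intervalIntegrable x y
  let I : ℝ → ℝ := fun t => ∫ s in p..t, trap p q d s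
  have hIsub : ∀ s t, I t - I s = ∫ x in s..t, trap p q d x := by
    intro s t
    have := intervalIntegral.integral_add_adjacent_intervals (hint p s) (hint s t)
    simp only [I]
    linarith
  have hImono : Monotone I := by
    intro s t hst
    have h1 : 0 ≤ ∫ x in s..t, trap p q d x :=
      intervalIntegral.integral_nonneg hst fun x _ => trap_nonneg _ _ _ _
    have := hIsub s t
    linarith
  have hIp : ∀ t, t ≤ p → I t = 0 := by
    intro t ht
    have h1 : ∫ x in t..p, trap p q d x = ∫ x in t..p, (0 : ℝ) := by
      apply intervalIntegral.integral_congr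
      intro x hx
      rw [uIcc_of_le ht] at hx
      exact trap_left hd hx.2
    have h2 : I p = 0 := by simp [I]
    have := hIsub t p
    rw [h1] at this
    simp only [intervalIntegral.integral_zero] at this
    linarith
  have hIq : ∀ t, q ≤ t → I t = I q := by
    intro t ht
    have h1 : ∫ x in q..t, trap p q d x = ∫ x in q..t, (0 : ℝ) := by
      apply intervalIntegral.integral_congr
      intro x hx
      rw [uIcc_of_le ht] at hx
      exact trap_right hd hx.1
    have := hIsub q t
    rw [h1] at this
    simp only [intervalIntegral.integral_zero] at this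
    linarith
  have hM : q - p - 2 * d ≤ I q := by
    have h1 : I (q - d) - I (p + d) = q - p - 2 * d := by
      rw [hIsub]
      have : ∫ x in (p + d)..(q - d), trap p q d x = ∫ x in (p + d)..(q - d), (1 : ℝ) := by
        apply intervalIntegral.integral_congr
        intro x hx
        rw [uIcc_of_le (by linarith)] at hx
        exact trap_mid hd hx.1 hx.2
      rw [this]
      simp only [intervalIntegral.integral_const, smul_eq_mul, mul_one]
      ring
    have h2 := hImono (by linarith : q - d ≤ q)
    have h3 := hImono (by linarith : p ≤ p + d)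
    have h4 := hIp p le_rfl
    linarith
  have hMpos : 0 < I q := by linarith
  have hI0 : ∀ t, 0 ≤ I t := by
    intro t
    rcases le_total t p with ht | ht
    · rw [hIp t ht]
    · have := hImono ht
      rw [hIp p le_rfl] at this
      exact this
  have hI1 : ∀ t, I t ≤ I q := by
    intro t
    rcases le_total t q with ht | ht
    · exact hImono ht
    · rw [hIq t ht]
  have hIlip : ∀ t s, |I t - I s| ≤ |t - s| := by
    intro t s
    rw [hIsub]
    have := intervalIntegral.norm_integral_le_of_norm_le_const (a := s) (b := t)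
      (f := trap p q d) (C := 1) (fun x _ => by
        rw [Real.norm_eq_abs, abs_of_nonneg (trap_nonneg _ _ _ _)]
        exact trap_le_one _ _ _ _)
    rw [Real.norm_eq_abs, one_mul] at this
    exact this
  have hder : ∀ t, HasDerivAt I (trap p q d t) t := fun t =>
    (hc.integral_hasStrictDerivAt p t).hasDerivAt
  have hIc : ContDiff ℝ 1 I := by
    rw [contDiff_one_iff_deriv]
    refine ⟨fun t => (hder t).differentiableAt, ?_⟩
    have : deriv I = trap p q d := by
      funext t; exact (hder t).deriv
    rw [this]; exact hc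
  refine ⟨fun t => 1 - I t / I q, ?_, ?_, ?_, ?_, ?_⟩
  · exact contDiff_const.sub (hIc.div_const _)
  · intro t ht
    simp only [hIp t ht, zero_div, sub_zero]
  · intro t ht
    simp only [hIq t ht, div_self hMpos.ne', sub_self]
  · intro t
    have h1 : I t / I q ≤ 1 := by rw [div_le_one hMpos]; exact hI1 t
    have h2 : 0 ≤ I t / I q := div_nonneg (hI0 t) hMpos.le
    constructor <;> simp only <;> linarith
  · intro t s
    have h1 : (1 - I t / I q) - (1 - I s / I q) = (I s - I t) / I q := by ring
    simp only
    rw [h1, abs_div, abs_of_pos hMpos, div_eq_mul_inv, mul_comm, ← one_div]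
    have h2 : |I s - I t| ≤ |t - s| := by rw [abs_sub_comm t s]; exact hIlip s t
    have h3 : 0 < q - p - 2 * d := by linarith
    gcongr

end Pool.Agent.CKB
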