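import Mathlib

set_option autoImplicit false

open Set Filter Topology

namespace Pool.Agent.CKB

universe u

/-- One step of the derivation: add to `I` the isolated points of its complement. -/
def nxt {K : Type u} [TopologicalSpace K] (I : Set K) : Set K :=
  I ∪ {x | ∃ V : Set K, IsOpen V ∧ V ∩ Iᶜ = {x}}

/-- The increasing transfinite sequence of open sets. -/
noncomputable def lev (K : Type u) [TopologicalSpace K] (a : Ordinal.{u}) : Set K :=
  ⋃ b : Set.Iio a, nxt (lev K b.1)
termination_by a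
decreasing_by exact b.2

lemma mem_lev {K : Type u} [TopologicalSpace K] {a : Ordinal.{u}} {x : K} :
    x ∈ lev K a ↔ ∃ b < a, x ∈ nxt (lev K b) := by
  rw [lev]
  simp only [mem_iUnion, Subtype.exists, mem_Iio, exists_prop]

lemma isOpen_nxt {K : Type u} [TopologicalSpace K] {I : Set K} (hI : IsOpen I) :
    IsOpen (nxt I) := by
  rw [isOpen_iff_forall_mem_open]
  rintro x (hx | ⟨V, hV, hVx⟩)
  · exact ⟨I, subset_union_left, hI, hx⟩
  · refine ⟨V, ?_, hV, ?_⟩
    · intro y hy
      by_cases hyI : y ∈ I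
      · exact Or.inl hyI
      · right
        have : y ∈ V ∩ Iᶜ := ⟨hy, hyI⟩
        rw [hVx, mem_singleton_iff] at this
        subst this
        exact ⟨V, hV, hVx⟩
    · have : x ∈ V ∩ Iᶜ := by rw [hVx]; rfl
      exact this.1

lemma isOpen_lev {K : Type u} [TopologicalSpace K] (a : Ordinal.{u}) : IsOpen (lev K a) := by
  induction a using WellFoundedLT.induction with
  | ind a ih =>
    rw [lev]
    exact isOpen_iUnion fun b => isOpen_nxt (ih b.1 b.2)

lemma exists_mem_lev {K : Type u} [TopologicalSpace K]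
    (hK : ∀ s : Set K, s.Nonempty → ∃ x ∈ s, ∃ U : Set K, IsOpen U ∧ U ∩ s = {x}) (x : K) :
    ∃ a, x ∈ lev K a := by
  by_contra hx
  push Not at hx
  apply not_injective_of_ordinal (fun a => lev K a)
  have key : ∀ a b : Ordinal.{u}, a < b → lev K a ≠ lev K b := by
    intro a b hab he
    obtain ⟨p, hp, U, hU, hUp⟩ := hK (lev K a)ᶜ ⟨x, hx a⟩
    have : p ∈ lev K b := mem_lev.2 ⟨a, hab, Or.inr ⟨U, hU, hUp⟩⟩
    rw [← he] at this
    exact hp this
  intro a b hab
  rcases lt_trichotomy a b with h | h | h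
  · exact absurd hab (key a b h)
  · exact h
  · exact absurd hab.symm (key b a h)

/-- The rank of a point. -/
noncomputable def rk {K : Type u} [TopologicalSpace K] (x : K) : Ordinal.{u} :=
  sInf {a | x ∈ lev K a}

lemma rk_spec {K : Type u} [TopologicalSpace K]
    (hK : ∀ s : Set K, s.Nonempty → ∃ x ∈ s, ∃ U : Set K, IsOpen U ∧ U ∩ s = {x}) (x : K) :
    ∃ V : Set K, IsOpen V ∧ x ∈ V ∧ ∀ y ∈ V, y ≠ x → rk y < rk x := by
  have hne : {a | x ∈ lev K a}.Nonempty := exists_mem_lev hK x
  have hmem : x ∈ lev K (rk x) := csInf_mem hne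
  obtain ⟨b, hb, hxb⟩ := mem_lev.1 hmem
  have hxb' : x ∉ lev K b := fun h => notMem_of_lt_csInf hb (OrderBot.bddBelow _) h
  rcases hxb with h | ⟨V, hV, hVx⟩
  · exact absurd h hxb'
  · refine ⟨V, hV, ?_, ?_⟩
    · have : x ∈ V ∩ (lev K b)ᶜ := by rw [hVx]; rfl
      exact this.1
    · intro y hy hyx
      have hyb : y ∈ lev K b := by
        by_contra hyb
        have : y ∈ V ∩ (lev K b)ᶜ := ⟨hy, hyb⟩
        rw [hVx] at this
        exact hyx this
      exact lt_of_le_of_lt (csInf_le' hyb) hb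

/-- A scattered space has a well-order all of whose closed initial segments are open. -/
theorem exists_order {K : Type u} [TopologicalSpace K]
    (hK : ∀ s : Set K, s.Nonempty → ∃ x ∈ s, ∃ U : Set K, IsOpen U ∧ U ∩ s = {x}) :
    ∃ (_ : LinearOrder K), WellFoundedLT K ∧ ∀ x : K, IsOpen (Iic x) := by
  classical
  let w : LinearOrder K := linearOrderOfSTO (WellOrderingRel (α := K))
  let wf : WellFounded w.lt := (IsWellOrder.toIsWellFounded (r := WellOrderingRel (α := K))).wf
  have hwf : @WellFoundedLT K w.toLT := ⟨wf⟩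
  let g : K → @Lex (Ordinal.{u} × K) := fun x => toLex (rk x, x)
  have hg : Function.Injective g := by
    intro x y h
    exact congrArg (fun p => (ofLex p).2) h
  let o : LinearOrder K :=
    @LinearOrder.lift' K (Ordinal.{u} ×ₗ K) (@Prod.Lex.instLinearOrder Ordinal.{u} K _ w) g hg
  refine ⟨o, ?_, ?_⟩
  · refine ⟨?_⟩
    have h1 : WellFounded (@LT.lt (Ordinal.{u} ×ₗ K) (@Prod.Lex.instLT Ordinal.{u} K _ w.toLT)) :=
      (WellFounded.prod_lex Ordinal.lt_wf wf)
    exact InvImage.wf g h1
  · intro x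
    rw [isOpen_iff_forall_mem_open]
    intro y hy
    obtain ⟨V, hV, hyV, hVr⟩ := rk_spec hK y
    refine ⟨V, ?_, hV, hyV⟩
    intro z hz
    by_cases hzy : z = y
    · rw [hzy]; exact hy
    · have h1 : rk z < rk y := hVr z hz hzy
      have h2 : o.lt z y := Prod.Lex.left _ _ h1
      have h3 : o.le y x := hy
      exact (@le_trans K o.toPreorder z y x (@le_of_lt K o.toPreorder z y h2) h3)

end Pool.Agent.CKB
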