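import Mathlib

set_option autoImplicit false

open Set Filter Topology

namespace Pool.Agent.CKB

universe u

variable {K : Type u} [TopologicalSpace K]

lemma exists_max [LinearOrder K] (ho : ∀ x : K, IsOpen (Iic x)) {S : Set K}
    (hS : IsCompact S) (hne : S.Nonempty) : ∃ x ∈ S, ∀ y ∈ S, y ≤ x := by
  have : Nonempty S := hne.to_subtype
  obtain ⟨x, hx⟩ := hS.elim_directed_cover (fun x : S => Iic x.1) (fun x => ho x.1)
    (fun y hy => mem_iUnion.2 ⟨⟨y, hy⟩, le_rfl⟩) (by
      intro a b
      rcases le_total a.1 b.1 with h | h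
      · exact ⟨b, Iic_subset_Iic.2 h, subset_rfl⟩
      · exact ⟨a, subset_rfl, Iic_subset_Iic.2 h⟩)
  exact ⟨x.1, x.2, fun y hy => hx hy⟩

lemma countable_image_compact {f : K → ℝ} {A : Set K} (hA : IsCompact A)
    (h : ∀ x ∈ A, ∃ V : Set K, IsOpen V ∧ x ∈ V ∧ (f '' V).Countable) : (f '' A).Countable := by
  refine hA.induction_on (p := fun A => (f '' A).Countable) ?_ ?_ ?_ ?_
  · simp
  · intro s t hst ht
    exact ht.mono (image_mono hst)
  · intro s t hs ht
    rw [image_union]
    exact hs.union ht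
  · intro x hx
    obtain ⟨V, hV, hxV, hc⟩ := h x hx
    exact ⟨V, mem_nhdsWithin_of_mem_nhds (hV.mem_nhds hxV), hc⟩

lemma countable_range [CompactSpace K] [T2Space K]
    (hK : ∀ s : Set K, s.Nonempty → ∃ x ∈ s, ∃ U : Set K, IsOpen U ∧ U ∩ s = {x})
    (f : C(K, ℝ)) : (range f).Countable := by
  have hW : ∀ x : K, ∃ V : Set K, IsOpen V ∧ x ∈ V ∧ (f '' V).Countable := by
    by_contra hcon
    have hne : {x : K | ¬ ∃ V : Set K, IsOpen V ∧ x ∈ V ∧ (f '' V).Countable}.Nonempty := by
      rw [not_forall] at hcon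
      exact hcon
    obtain ⟨x, hx, U, hU, hUx⟩ := hK _ hne
    have hxU : x ∈ U := by
      have : x ∈ U ∩ {x : K | ¬ ∃ V : Set K, IsOpen V ∧ x ∈ V ∧ (f '' V).Countable} := by
        rw [hUx]; rfl
      exact this.1
    obtain ⟨C, hC, hxC, hCU⟩ := exists_compact_subset hU hxU
    apply hx
    refine ⟨interior C, isOpen_interior, hxC, ?_⟩
    have hcov : f '' (interior C) ⊆ {f x} ∪ ⋃ n : ℕ,
        f '' (C ∩ {y | 1 / ((n : ℝ) + 1) ≤ |f y - f x|}) := by
      rintro _ ⟨y, hy, rfl⟩
      by_cases hyx : f y = f x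
      · left; rw [hyx]; rfl
      · right
        have hpos : 0 < |f y - f x| := abs_pos.2 (sub_ne_zero.2 hyx)
        obtain ⟨n, hn⟩ := exists_nat_one_div_lt hpos
        exact mem_iUnion.2 ⟨n, ⟨y, ⟨interior_subset hy, hn.le⟩, rfl⟩⟩
    refine Countable.mono hcov ((countable_singleton _).union (countable_iUnion fun n => ?_))
    apply countable_image_compact
    · apply hC.inter_right
      exact isClosed_le continuous_const
        ((f.continuous.sub continuous_const).abs)
    · rintro y ⟨hyC, hyn⟩
      by_contra hy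
      have : y ∈ U ∩ {x : K | ¬ ∃ V : Set K, IsOpen V ∧ x ∈ V ∧ (f '' V).Countable} :=
        ⟨hCU hyC, hy⟩
      rw [hUx, mem_singleton_iff] at this
      rw [this] at hyn
      simp only [mem_ofPred_eq, sub_self, abs_zero] at hyn
      have : (0 : ℝ) < 1 / ((n : ℝ) + 1) := by positivity
      linarith
  rw [← image_univ]
  exact countable_image_compact isCompact_univ (fun x _ => hW x)

variable [CompactSpace K]

/-- The update of the threshold `u` at a point where the modulus is `m`. -/
def upd (l u m : ℝ) : ℝ := (1 + l) * m - l * u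

/-- `Good l f u L`: starting at threshold `u`, the process run on `f` updates exactly at the
points of the decreasing list `L`, and all comparisons are strict. -/
def Good [LT K] (l : ℝ) (f : C(K, ℝ)) : ℝ → List K → Prop
  | u, [] => ‖f‖ < u
  | u, x :: L => u < |f x| ∧ (∀ y, x < y → |f y| < u) ∧ Good l f (upd l u |f x|) L

/-- The last threshold. -/
def val (l : ℝ) (f : C(K, ℝ)) : ℝ → List K → ℝ
  | u, [] => u
  | u, x :: L => val l f (upd l u |f x|) L

/-- The derivative of `val` with respect to the function. -/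
noncomputable def der (l : ℝ) (f : C(K, ℝ)) : List K → (C(K, ℝ) →L[ℝ] ℝ)
  | [] => 0
  | x :: L => der l f L + ((-l) ^ L.length * (1 + l) * (SignType.sign (f x) : ℝ)) •
      ContinuousMap.evalCLM ℝ x

lemma abs_apply_le (f : C(K, ℝ)) (x : K) : |f x| ≤ ‖f‖ := by
  rw [← Real.norm_eq_abs]; exact f.norm_coe_le_norm x

lemma upd_mono {l u m : ℝ} (hl : 0 < l) (h : u < m) : m < upd l u m := by
  unfold upd; nlinarith

lemma le_val [LT K] {l : ℝ} (hl : 0 < l) {f : C(K, ℝ)} {L : List K} :
    ∀ {u : ℝ}, Good l f u L → u ≤ val l f u L := by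
  induction L with
  | nil => intro u _; exact le_rfl
  | cons x L ih =>
    rintro u ⟨h1, _, h3⟩
    have := ih h3
    have h4 := upd_mono hl h1
    simp only [val]
    linarith

lemma norm_lt_val [LT K] {l : ℝ} {f : C(K, ℝ)} {L : List K} :
    ∀ {u : ℝ}, Good l f u L → ‖f‖ < val l f u L := by
  induction L with
  | nil => intro u h; exact h
  | cons x L ih =>
    rintro u ⟨_, _, h3⟩
    exact ih h3

lemma val_le [LT K] {l : ℝ} (hl : 0 < l) {f : C(K, ℝ)} {L : List K} :
    ∀ {u : ℝ}, 0 ≤ u → Good l f u L → val l f u L ≤ max u ((1 + l) * ‖f‖) := by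
  induction L with
  | nil => intro u _ _; exact le_max_left _ _
  | cons x L ih =>
    rintro u hu ⟨h1, _, h3⟩
    have h4 := upd_mono hl h1
    have h5 := ih (by linarith) h3
    have h6 := abs_apply_le f x
    have h7 : upd l u |f x| ≤ (1 + l) * ‖f‖ := by
      unfold upd; nlinarith
    rw [max_eq_right h7] at h5
    exact h5.trans (le_max_right _ _)

/-- the update map as a maximum -/
lemma upd_eq_max {l u m : ℝ} (hl : 0 < l) (h : u < m) : upd l u m = max u (upd l u m) := by
  rw [max_eq_right]; exact (h.trans (upd_mono hl h)).le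

lemma eq_max_upd {l u m : ℝ} (hl : 0 < l) (h : m < u) : u = max u (upd l u m) := by
  rw [max_eq_left]; unfold upd; nlinarith

lemma max_upd_diff {l u m u' m' d : ℝ} (hl : 0 < l) (hl1 : l < 1) (hm : |m - m'| ≤ d)
    (hu : |u - u'| ≤ (1 + l) / (1 - l) * d) :
    |max u (upd l u m) - max u' (upd l u' m')| ≤ (1 + l) / (1 - l) * d := by
  refine (abs_max_sub_max_le_max _ _ _ _).trans (max_le hu ?_)
  have h1 : upd l u m - upd l u' m' = (1 + l) * (m - m') - l * (u - u') := by unfold upd; ring
  rw [h1]
  have h2 : (0 : ℝ) < 1 - l := by linarith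
  calc |(1 + l) * (m - m') - l * (u - u')| ≤ |(1 + l) * (m - m')| + |l * (u - u')| := abs_sub _ _
    _ = (1 + l) * |m - m'| + l * |u - u'| := by
        rw [abs_mul, abs_mul, abs_of_pos hl, abs_of_pos (by linarith : (0:ℝ) < 1 + l)]
    _ ≤ (1 + l) * d + l * ((1 + l) / (1 - l) * d) := by gcongr
    _ = (1 + l) / (1 - l) * d := by field_simp; ring

lemma abs_abs_sub_le (f g : C(K, ℝ)) (x : K) : |(|f x| - |g x|)| ≤ ‖f - g‖ := by
  refine (abs_abs_sub_abs_le _ _).trans ?_
  have := abs_apply_le (f - g) x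
  simpa using this

/-- The basic Lipschitz estimate. -/
lemma val_diff [LinearOrder K] {l : ℝ} (hl : 0 < l) (hl1 : l < 1) {f g : C(K, ℝ)} {d : ℝ}
    (hd : ‖f - g‖ ≤ d) : ∀ (n : ℕ) (L M : List K) (u v : ℝ), L.length + M.length ≤ n →
    Good l f u L → Good l g v M → |u - v| ≤ (1 + l) / (1 - l) * d →
    |val l f u L - val l g v M| ≤ (1 + l) / (1 - l) * d := by
  intro n
  induction n with
  | zero =>
    intro L M u v hn hL hM huv
    have h1 : L = [] := by
      apply List.eq_nil_of_length_eq_zero; omega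
    have h2 : M = [] := by
      apply List.eq_nil_of_length_eq_zero; omega
    subst h1; subst h2
    exact huv
  | succ n ih =>
    intro L M u v hn hL hM huv
    have hx : ∀ x : K, |(|f x| - |g x|)| ≤ d := fun x => (abs_abs_sub_le f g x).trans hd
    match L, M, hn, hL, hM with
    | [], [], _, _, _ => exact huv
    | x :: L, [], hn, hL, hM =>
      obtain ⟨h1, h2, h3⟩ := hL
      have hM1 : |g x| < v := lt_of_le_of_lt (abs_apply_le g x) hM
      have := max_upd_diff hl hl1 (hx x) huv
      rw [← upd_eq_max hl h1, ← eq_max_upd hl hM1] at this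
      exact ih L [] (upd l u |f x|) v (by simp at hn ⊢; omega) h3 hM this
    | [], y :: M, hn, hL, hM =>
      obtain ⟨h1, h2, h3⟩ := hM
      have hL1 : |f y| < u := lt_of_le_of_lt (abs_apply_le f y) hL
      have := max_upd_diff hl hl1 (hx y) huv
      rw [← upd_eq_max hl h1, ← eq_max_upd hl hL1] at this
      exact ih [] M u (upd l v |g y|) (by simp at hn ⊢; omega) hL h3 this
    | x :: L, y :: M, hn, hL, hM =>
      rcases lt_trichotomy x y with hxy | hxy | hxy
      · obtain ⟨h1, h2, h3⟩ := hM
        have hL1 : |f y| < u := hL.2.1 y hxy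
        have := max_upd_diff hl hl1 (hx y) huv
        rw [← upd_eq_max hl h1, ← eq_max_upd hl hL1] at this
        exact ih (x :: L) M u (upd l v |g y|) (by simp at hn ⊢; omega) hL h3 this
      · subst hxy
        obtain ⟨h1, h2, h3⟩ := hM
        obtain ⟨h1', h2', h3'⟩ := hL
        have := max_upd_diff hl hl1 (hx x) huv
        rw [← upd_eq_max hl h1, ← upd_eq_max hl h1'] at this
        exact ih L M (upd l u |f x|) (upd l v |g x|) (by simp at hn ⊢; omega) h3' h3 this
      · obtain ⟨h1, h2, h3⟩ := hL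
        have hM1 : |g x| < v := hM.2.1 x hxy
        have := max_upd_diff hl hl1 (hx x) huv
        rw [← upd_eq_max hl h1, ← eq_max_upd hl hM1] at this
        exact ih L (y :: M) (upd l u |f x|) v (by simp at hn ⊢; omega) h3 hM this

/-- The exceptional thresholds. -/
def exc (l : ℝ) (M : Set ℝ) : ℕ → Set ℝ
  | 0 => M
  | n + 1 => (fun p : ℝ × ℝ => ((1 + l) * p.1 - p.2) / l) '' (M ×ˢ exc l M n)

lemma countable_exc {l : ℝ} {M : Set ℝ} (hM : M.Countable) (n : ℕ) : (exc l M n).Countable := by
  induction n with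
  | zero => exact hM
  | succ n ih => exact (hM.prod ih).image _

/-- Existence of a good run for all thresholds outside a countable set. -/
lemma exists_good [LinearOrder K] [WellFoundedLT K] (ho : ∀ x : K, IsOpen (Iic x)) {l : ℝ}
    (hl : 0 < l) {f : C(K, ℝ)} (hf : (range f).Countable) :
    ∃ C : Set ℝ, C.Countable ∧ ∀ u, 0 < u → u ∉ C → ∃ L, Good l f u L := by
  have hM : (range fun x => |f x|).Countable := by
    have : (range fun x => |f x|) = (fun t : ℝ => |t|) '' range f := by
      rw [← range_comp]; rfl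
    rw [this]; exact hf.image _
  refine ⟨⋃ n, exc l (range fun x => |f x|) n, countable_iUnion fun n => countable_exc hM n, ?_⟩
  have hcomp : ∀ u : ℝ, IsCompact {y : K | u ≤ |f y|} := fun u =>
    (isClosed_le continuous_const f.continuous.abs).isCompact
  have hnil : ∀ u : ℝ, 0 < u → ¬ {y : K | u ≤ |f y|}.Nonempty → Good l f u [] := by
    intro u hu hne
    have : ∀ y, ‖f y‖ < u := by
      intro y
      by_contra hy
      exact hne ⟨y, by rw [Real.norm_eq_abs, not_lt] at hy; exact hy⟩
    exact (ContinuousMap.norm_lt_iff _ hu).2 this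
  have key : ∀ x : K, ∀ u, 0 < u → u ∉ ⋃ n, exc l (range fun x => |f x|) n →
      u ≤ |f x| → (∀ y, u ≤ |f y| → y ≤ x) → ∃ L, Good l f u L := by
    intro x
    induction x using WellFoundedLT.induction with
    | ind x ih =>
      intro u hu huC hux hmax
      have hne : u ≠ |f x| := by
        rintro rfl
        exact huC (mem_iUnion.2 ⟨0, ⟨x, rfl⟩⟩)
      have hlt : u < |f x| := lt_of_le_of_ne hux hne
      have hv := upd_mono hl hlt
      have hvC : upd l u |f x| ∉ ⋃ n, exc l (range fun x => |f x|) n := by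
        intro h
        obtain ⟨n, hn⟩ := mem_iUnion.1 h
        apply huC
        refine mem_iUnion.2 ⟨n + 1, ⟨(|f x|, upd l u |f x|), ⟨⟨x, rfl⟩, hn⟩, ?_⟩⟩
        simp only [upd]
        field_simp
        ring
      have habove : ∀ y, x < y → |f y| < u := by
        intro y hy
        by_contra h
        exact absurd (hmax y (not_lt.1 h)) (not_le.2 hy)
      by_cases hS : {y : K | upd l u |f x| ≤ |f y|}.Nonempty
      · obtain ⟨z, hz, hzmax⟩ := exists_max ho (hcomp _) hS
        have hz' : upd l u |f x| ≤ |f z| := hz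
        have hzx : z < x := by
          refine lt_of_le_of_ne (hmax z (by linarith)) ?_
          rintro rfl
          linarith
        obtain ⟨L, hL⟩ := ih z hzx (upd l u |f x|) (by linarith) hvC hz hzmax
        exact ⟨x :: L, hlt, habove, hL⟩
      · exact ⟨[x], hlt, habove, hnil _ (by linarith) hS⟩
  intro u hu huC
  by_cases hS : {y : K | u ≤ |f y|}.Nonempty
  · obtain ⟨z, hz, hzmax⟩ := exists_max ho (hcomp _) hS
    exact key z u hu huC hz hzmax
  · exact ⟨[], hnil u hu hS⟩

/-- Stability of good runs. -/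
lemma good_eventually [LinearOrder K] (ho : ∀ x : K, IsOpen (Iic x)) {l : ℝ} {f : C(K, ℝ)}
    {L : List K} : ∀ {u : ℝ}, Good l f u L →
    ∀ᶠ p : C(K, ℝ) × ℝ in 𝓝 (f, u), Good l p.1 p.2 L := by
  induction L with
  | nil =>
    intro u h
    exact (continuous_fst.norm.continuousAt).eventually_lt continuous_snd.continuousAt h
  | cons x L ih =>
    rintro u ⟨h1, h2, h3⟩
    have hev : ∀ z : K, Continuous fun p : C(K, ℝ) × ℝ => |p.1 z| := fun z =>
      ((continuous_eval_const z).comp continuous_fst).abs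
    have e1 : ∀ᶠ p : C(K, ℝ) × ℝ in 𝓝 (f, u), p.2 < |p.1 x| :=
      continuous_snd.continuousAt.eventually_lt (hev x).continuousAt h1
    have hcl : IsCompact (Ioi x) := by
      have : Ioi x = (Iic x)ᶜ := compl_Iic.symm
      rw [this]
      exact (ho x).isClosed_compl.isCompact
    have e2 : ∀ᶠ p : C(K, ℝ) × ℝ in 𝓝 (f, u), ∀ y ∈ Ioi x, |p.1 y| < p.2 := by
      apply hcl.eventually_forall_of_forall_eventually
      intro y hy
      have hc1 : Continuous fun z : (C(K, ℝ) × ℝ) × K => |z.1.1 z.2| := by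
        have : Continuous fun z : (C(K, ℝ) × ℝ) × K => z.1.1 z.2 := by fun_prop
        exact this.abs
      have hc2 : Continuous fun z : (C(K, ℝ) × ℝ) × K => z.1.2 := by fun_prop
      exact hc1.continuousAt.eventually_lt hc2.continuousAt (h2 y hy)
    have e3 : ∀ᶠ p : C(K, ℝ) × ℝ in 𝓝 (f, u), Good l p.1 (upd l p.2 |p.1 x|) L := by
      have hc : Continuous fun p : C(K, ℝ) × ℝ => (p.1, upd l p.2 |p.1 x|) := by
        refine continuous_fst.prodMk ?_
        unfold upd
        exact (continuous_const.mul (hev x)).sub (continuous_const.mul continuous_snd)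
      exact (hc.tendsto (f, u)).eventually (ih h3)
    filter_upwards [e1, e2, e3] with p q1 q2 q3
    exact ⟨q1, q2, q3⟩

lemma ne_zero_of_good [LinearOrder K] {l : ℝ} (hl : 0 < l) {f : C(K, ℝ)} {L : List K} :
    ∀ {u : ℝ}, 0 < u → Good l f u L → ∀ x ∈ L, f x ≠ 0 := by
  induction L with
  | nil => intro u _ _ x hx; simp at hx
  | cons x L ih =>
    rintro u hu ⟨h1, _, h3⟩ y hy
    have h4 := upd_mono hl h1
    rcases List.mem_cons.1 hy with rfl | hy
    · intro h
      rw [h, abs_zero] at h1
      linarith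
    · exact ih (by linarith) h3 y hy

/-- Explicit formula for `val`. -/
lemma val_sub {l : ℝ} {f : C(K, ℝ)} {L : List K} : ∀ {u v : ℝ},
    val l f u L - val l f v L = (-l) ^ L.length * (u - v) := by
  induction L with
  | nil => intro u v; simp [val]
  | cons x L ih =>
    intro u v
    simp only [val]
    rw [ih]
    simp only [upd, List.length_cons]
    ring

/-- Sum form of `val` at threshold zero. -/
noncomputable def sval (l : ℝ) (f : C(K, ℝ)) : List K → ℝ
  | [] => 0
  | x :: L => sval l f L + (-l) ^ L.length * (1 + l) * |f x|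

lemma val_eq_sval {l : ℝ} {f : C(K, ℝ)} {L : List K} : ∀ {u : ℝ},
    val l f u L = (-l) ^ L.length * u + sval l f L := by
  induction L with
  | nil => intro u; simp [val, sval]
  | cons x L ih =>
    intro u
    simp only [val, sval]
    rw [ih]
    simp only [upd, List.length_cons]
    ring

lemma hasFDerivAt_sval {l : ℝ} {f : C(K, ℝ)} {L : List K} (hf : ∀ x ∈ L, f x ≠ 0) :
    HasFDerivAt (fun g : C(K, ℝ) => sval l g L) (der l f L) f := by
  induction L with
  | nil => exact hasFDerivAt_const _ _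
  | cons x L ih =>
    have h1 := ih fun y hy => hf y (List.mem_cons_of_mem _ hy)
    have hx : f x ≠ 0 := hf x List.mem_cons_self
    have h2 : HasFDerivAt (fun g : C(K, ℝ) => |g x|)
        ((SignType.sign (f x) : ℝ) • ContinuousMap.evalCLM ℝ x) f := by
      have h3 : HasFDerivAt (fun g : C(K, ℝ) => g x) (ContinuousMap.evalCLM ℝ x) f :=
        (ContinuousMap.evalCLM (M := ℝ) ℝ x).hasFDerivAt
      exact (hasDerivAt_abs hx).comp_hasFDerivAt f h3
    have h4 := h1.add (h2.const_mul ((-l) ^ L.length * (1 + l)))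
    simp only [sval, der]
    rw [smul_smul] at h4
    exact h4

lemma hasFDerivAt_val {l : ℝ} {f : C(K, ℝ)} {u : ℝ} {L : List K} (hf : ∀ x ∈ L, f x ≠ 0) :
    HasFDerivAt (fun g : C(K, ℝ) => val l g u L) (der l f L) f := by
  have : (fun g : C(K, ℝ) => val l g u L) = fun g => (-l) ^ L.length * u + sval l g L := by
    funext g; exact val_eq_sval
  rw [this]
  exact (hasFDerivAt_sval hf).const_add _

lemma der_eventually {l : ℝ} {f : C(K, ℝ)} {L : List K} (hf : ∀ x ∈ L, f x ≠ 0) :
    ∀ᶠ g in 𝓝 f, der l g L = der l f L ∧ ∀ x ∈ L, g x ≠ 0 := by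
  induction L with
  | nil => simp [der]
  | cons x L ih =>
    have h1 := ih fun y hy => hf y (List.mem_cons_of_mem _ hy)
    have hx : f x ≠ 0 := hf x List.mem_cons_self
    have hc : Continuous fun g : C(K, ℝ) => g x := continuous_eval_const x
    have h2 : ∀ᶠ g : C(K, ℝ) in 𝓝 f, SignType.sign (g x) = SignType.sign (f x) ∧ g x ≠ 0 := by
      rcases lt_or_gt_of_ne hx with h | h
      · filter_upwards [hc.continuousAt.eventually_lt continuousAt_const h] with g hg
        rw [sign_neg hg, sign_neg h]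
        exact ⟨rfl, hg.ne⟩
      · filter_upwards [continuousAt_const.eventually_lt hc.continuousAt h] with g hg
        rw [sign_pos hg, sign_pos h]
        exact ⟨rfl, hg.ne'⟩
    filter_upwards [h1, h2] with g hg1 hg2
    refine ⟨?_, ?_⟩
    · simp only [der]
      rw [hg1.1, hg2.1]
    · intro y hy
      rcases List.mem_cons.1 hy with rfl | hy
      · exact hg2.2
      · exact hg1.2 y hy

end Pool.Agent.CKB
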