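import Mathlib
import Pool.Agent.CKB.Ord
import Pool.Agent.CKB.Run
import Pool.Agent.CKB.Abs

set_option autoImplicit false

open Set Filter Topology MeasureTheory
open scoped NNReal

namespace Pool.Agent.CKB

universe u

variable {K : Type u} [TopologicalSpace K] [CompactSpace K]

/-- the Lipschitz constant -/
noncomputable def lipc (l : ℝ) : ℝ≥0 := Real.toNNReal ((1 + l) / (1 - l))

lemma coe_lipc {l : ℝ} (hl : 0 < l) (hl1 : l < 1) : (lipc l : ℝ) = (1 + l) / (1 - l) := by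
  rw [lipc, Real.coe_toNNReal]
  have : 0 < 1 - l := by linarith
  positivity

lemma exists_ext [LinearOrder K] {l : ℝ} (hl : 0 < l) (hl1 : l < 1) (t : ℝ) :
    ∃ N : C(K, ℝ) → ℝ, LipschitzWith (lipc l) N ∧ ∀ f L, Good l f t L → N f = val l f t L := by
  classical
  let N0 : C(K, ℝ) → ℝ := fun f => if h : ∃ L, Good l f t L then val l f t h.choose else 0
  have hN0 : ∀ f L, Good l f t L → N0 f = val l f t L := by
    intro f L hL
    have hex : ∃ L, Good l f t L := ⟨L, hL⟩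
    have h1 := val_diff hl hl1 (f := f) (g := f) (d := 0) (by simp) _ hex.choose L t t le_rfl
      hex.choose_spec hL (by simp)
    have h2 : N0 f = val l f t hex.choose := dif_pos hex
    rw [h2]
    rw [mul_zero] at h1
    exact sub_eq_zero.1 (abs_eq_zero.1 (le_antisymm h1 (abs_nonneg _)))
  have hlip : LipschitzOnWith (lipc l) N0 {f | ∃ L, Good l f t L} := by
    apply LipschitzOnWith.of_dist_le_mul
    rintro f ⟨L, hL⟩ g ⟨M, hM⟩
    rw [hN0 f L hL, hN0 g M hM, Real.dist_eq, dist_eq_norm, coe_lipc hl hl1]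
    refine val_diff hl hl1 le_rfl _ L M t t le_rfl hL hM ?_
    have : 0 < 1 - l := by linarith
    rw [sub_self, abs_zero]
    positivity
  obtain ⟨N, hN, hE⟩ := hlip.extend_real
  refine ⟨N, hN, fun f L hL => ?_⟩
  rw [← hE ⟨L, hL⟩, hN0 f L hL]

section
variable [LinearOrder K] {l : ℝ} (N : ℝ → C(K, ℝ) → ℝ)
  (hN : ∀ t f L, Good l f t L → N t f = val l f t L)

include hN

lemma hasFDerivAt_eventually (ho : ∀ x : K, IsOpen (Iic x)) (hl : 0 < l) {f : C(K, ℝ)} {t : ℝ}
    (ht : 0 < t) {L : List K} (hL : Good l f t L) :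
    ∀ᶠ p : C(K, ℝ) × ℝ in 𝓝 (f, t), HasFDerivAt (N p.2) (der l f L) p.1 := by
  have h1 := good_eventually ho hL
  have h2 := der_eventually (l := l) (ne_zero_of_good hl ht hL)
  have h3 : ∀ᶠ p : C(K, ℝ) × ℝ in 𝓝 (f, t), der l p.1 L = der l f L ∧ ∀ x ∈ L, p.1 x ≠ 0 :=
    (continuous_fst.tendsto (f, t)).eventually h2
  filter_upwards [h1.eventually_nhds, h3] with p hp1 hp2
  have hc : Continuous fun g : C(K, ℝ) => (g, p.2) := by fun_prop
  have h4 : ∀ᶠ g : C(K, ℝ) in 𝓝 p.1, Good l g p.2 L := (hc.tendsto p.1).eventually hp1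
  have h5 : N p.2 =ᶠ[𝓝 p.1] fun g => val l g p.2 L := by
    filter_upwards [h4] with g hg
    exact hN _ _ _ hg
  have h6 := hasFDerivAt_val (l := l) (u := p.2) hp2.2
  rw [hp2.1] at h6
  exact h6.congr_of_eventuallyEq h5

lemma continuousOn_N (ho : ∀ x : K, IsOpen (Iic x)) (f : C(K, ℝ)) :
    ContinuousOn (fun t => N t f) {t | ∃ L, Good l f t L} := by
  rintro t ⟨L, hL⟩
  apply ContinuousAt.continuousWithinAt
  have h1 := good_eventually ho hL
  have hc : Continuous fun s : ℝ => (f, s) := by fun_prop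
  have h2 : ∀ᶠ s : ℝ in 𝓝 t, Good l f s L := (hc.tendsto t).eventually h1
  have h3 : (fun s => N s f) =ᶠ[𝓝 t] fun s => (-l) ^ L.length * s + sval l f L := by
    filter_upwards [h2] with s hs
    rw [hN _ _ _ hs, val_eq_sval]
  exact (by fun_prop : Continuous fun s : ℝ => (-l) ^ L.length * s + sval l f L).continuousAt.congr
    h3.symm

omit hN in
lemma isOpen_good (ho : ∀ x : K, IsOpen (Iic x)) (f : C(K, ℝ)) :
    IsOpen {t : ℝ | 0 < t ∧ ∃ L, Good l f t L} := by
  rw [isOpen_iff_mem_nhds]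
  rintro t ⟨ht, L, hL⟩
  have hc : Continuous fun s : ℝ => (f, s) := by fun_prop
  have h2 := (hc.tendsto t).eventually (good_eventually ho hL)
  filter_upwards [h2, lt_mem_nhds ht] with s hs1 hs2
  exact ⟨hs2, L, hs1⟩

end

section
variable [LinearOrder K] [WellFoundedLT K] {l : ℝ} (N : ℝ → C(K, ℝ) → ℝ)

lemma ae_good (ho : ∀ x : K, IsOpen (Iic x)) (hl : 0 < l) {f : C(K, ℝ)}
    (hf : (range f).Countable) {a b : ℝ} (ha : 0 < a) :
    ∀ᵐ t ∂(volume.restrict (Icc a b)), t ∈ {t : ℝ | 0 < t ∧ ∃ L, Good l f t L} := by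
  obtain ⟨C, hC, hgood⟩ := exists_good ho hl hf
  rw [ae_restrict_iff' measurableSet_Icc]
  filter_upwards [hC.ae_notMem volume] with t ht htI
  have : 0 < t := lt_of_lt_of_le ha htI.1
  exact ⟨this, hgood t this ht⟩

variable (hN : ∀ t f L, Good l f t L → N t f = val l f t L)
include hN

lemma ae_bounds (ho : ∀ x : K, IsOpen (Iic x)) (hl : 0 < l) {f : C(K, ℝ)}
    (hf : (range f).Countable) {a b : ℝ} (ha : 0 < a) :
    ∀ᵐ t ∂(volume.restrict (Icc a b)),
      max a ‖f‖ ≤ N t f ∧ N t f ≤ max b ((1 + l) * ‖f‖) := by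
  filter_upwards [ae_good ho hl hf (b := b) ha, ae_restrict_mem measurableSet_Icc]
    with t ht htI
  obtain ⟨ht0, L, hL⟩ := ht
  rw [hN _ _ _ hL]
  refine ⟨max_le (htI.1.trans (le_val hl hL)) (norm_lt_val hL).le, ?_⟩
  exact (val_le hl ht0.le hL).trans (max_le_max htI.2 le_rfl)

lemma avg_run (ho : ∀ x : K, IsOpen (Iic x)) (hl : 0 < l)
    (hlip : ∀ t, LipschitzWith (lipc l) (N t))
    (hr : ∀ f : C(K, ℝ), (range f).Countable) {a b : ℝ} (ha : 0 < a) :
    Avg N (lipc l) (fun f => {t : ℝ | 0 < t ∧ ∃ L, Good l f t L}) a b where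
  lip := hlip
  op := isOpen_good ho
  ae := fun f => ae_good ho hl (hr f) ha
  cont := fun f => (continuousOn_N N hN ho f).mono fun t ht => ht.2
  bd := by
    intro f
    refine ⟨max b ((1 + l) * ‖f‖), ?_⟩
    filter_upwards [ae_bounds N hN ho hl (hr f) ha] with t ht
    rw [Real.norm_eq_abs, abs_of_nonneg]
    · exact ht.2
    · exact (le_max_of_le_left ha.le).trans ht.1
  der := by
    rintro f t ⟨ht, L, hL⟩
    exact ⟨der l f L, hasFDerivAt_eventually N hN ho hl ht hL⟩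

end

/-- The smooth substitute of the norm. -/
theorem exists_F [T2Space K]
    (hK : ∀ s : Set K, s.Nonempty → ∃ x ∈ s, ∃ U : Set K, IsOpen U ∧ U ∩ s = {x})
    {l a b : ℝ} (hl : 0 < l) (hl1 : l < 1) (ha : 0 < a) (hab : a < b) :
    ∃ F : C(K, ℝ) → ℝ, ContDiff ℝ 1 F ∧
      (∀ f g, |F f - F g| ≤ (1 + l) / (1 - l) * ‖f - g‖) ∧
      ∀ f, max a ‖f‖ ≤ F f ∧ F f ≤ max b ((1 + l) * ‖f‖) := by
  obtain ⟨o, hw, ho⟩ := exists_order hK
  choose N hlip hN using fun t : ℝ => exists_ext (K := K) hl hl1 t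
  have hr : ∀ f : C(K, ℝ), (range f).Countable := countable_range hK
  have havg := avg_run N hN ho hl hlip hr (b := b) ha
  have hba : 0 < b - a := sub_pos.2 hab
  refine ⟨fun f => (b - a)⁻¹ * ∫ t in Icc a b, N t f, ?_, ?_, ?_⟩
  · exact contDiff_const.mul havg.contDiff
  · intro f g
    rw [← mul_sub, abs_mul, abs_of_pos (inv_pos.2 hba)]
    have h1 := havg.lipschitz hab.le f g
    rw [coe_lipc hl hl1] at h1
    calc (b - a)⁻¹ * |(∫ t in Icc a b, N t f) - ∫ t in Icc a b, N t g|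
        ≤ (b - a)⁻¹ * ((b - a) * ((1 + l) / (1 - l) * ‖f - g‖)) := by gcongr
      _ = (1 + l) / (1 - l) * ‖f - g‖ := by field_simp
  · intro f
    have hb := ae_bounds N hN ho hl (hr f) (b := b) ha
    have hi := havg.integrable f
    have hvol : (volume.real (Icc a b)) = b - a := Real.volume_real_Icc_of_le hab.le
    have hconst : ∀ c : ℝ, ∫ _ in Icc a b, c = (b - a) * c := by
      intro c
      rw [setIntegral_const, hvol, smul_eq_mul]
    constructor
    · have h1 : ∫ _ in Icc a b, max a ‖f‖ ≤ ∫ t in Icc a b, N t f :=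
        integral_mono_ae (integrable_const _) hi (hb.mono fun t ht => ht.1)
      rw [hconst] at h1
      calc max a ‖f‖ = (b - a)⁻¹ * ((b - a) * max a ‖f‖) := by field_simp
        _ ≤ _ := mul_le_mul_of_nonneg_left h1 (inv_pos.2 hba).le
    · have h1 : ∫ t in Icc a b, N t f ≤ ∫ _ in Icc a b, max b ((1 + l) * ‖f‖) :=
        integral_mono_ae hi (integrable_const _) (hb.mono fun t ht => ht.2)
      rw [hconst] at h1
      calc (b - a)⁻¹ * ∫ t in Icc a b, N t f
          ≤ (b - a)⁻¹ * ((b - a) * max b ((1 + l) * ‖f‖)) := by gcongr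
        _ = _ := by field_simp

end Pool.Agent.CKB
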